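import Mathlib
import Pool.Graph.R_pool_sql_team_39128cda.H.MP_471c81_an.C

/-!
# MP_471c81_an: extension of Fréchet differentiable norms

Let `X` be a real Banach space with separable dual, or with an equivalent norm whose dual norm is
locally uniformly rotund, or (more generally) such that the Fréchet differentiable norms are dense
among the equivalent norms of `X`. Then every equivalent Fréchet differentiable norm on a closed
subspace `Y` of `X` extends to an equivalent Fréchet differentiable norm on `X`.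
Lemmas of the modules A, B, C of the earlier run 39128cda are imported; `main` is the last theorem
of its module C with the reflexivity hypothesis replaced by the density hypothesis.
-/

set_option autoImplicit false

namespace Pool.Agent.Results.MP_471c81_an.DualLURExtension

open Filter Topology Set Metric Pool.Agent.H.MP_471c81_an

universe u

variable {E : Type u} [NormedAddCommGroup E] [NormedSpace ℝ E]

/-- `N` is an equivalent norm on `E`. -/
def IsEquivNorm (N : Seminorm ℝ E) : Prop :=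
  ∃ c C : ℝ, 0 < c ∧ 0 < C ∧ ∀ x, c * ‖x‖ ≤ N x ∧ N x ≤ C * ‖x‖

/-- `N` is Fréchet differentiable at every nonzero point. -/
def IsFrechet (N : Seminorm ℝ E) : Prop := ∀ x, x ≠ 0 → DifferentiableAt ℝ (⇑N) x

/-- the norm on the dual of `E` which is dual to the norm `W`: `f ↦ sup {f x : W x ≤ 1}` -/
noncomputable def dualNorm (W : Seminorm ℝ E) (f : StrongDual ℝ E) : ℝ :=
  sSup ((fun x => f x) '' {x | W x ≤ 1})

/-- the dual norm of `W` is locally uniformly rotund -/
def DualLUR (W : Seminorm ℝ E) : Prop :=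
  ∀ (f : StrongDual ℝ E) (g : ℕ → StrongDual ℝ E),
    Tendsto (fun n => 2 * dualNorm W f ^ 2 + 2 * dualNorm W (g n) ^ 2 - dualNorm W (f + g n) ^ 2)
      atTop (𝓝 0) → Tendsto g atTop (𝓝 f)

/-- every equivalent norm of `E` is a limit, uniformly on bounded sets, of equivalent Fréchet
differentiable norms -/
def FrechetDense (E : Type u) [NormedAddCommGroup E] [NormedSpace ℝ E] : Prop :=
  ∀ N : Seminorm ℝ E, IsEquivNorm N → ∀ η : ℝ, 0 < η → η < 1 →
    ∃ p : Seminorm ℝ E, IsFrechet p ∧ ∀ x, (1 - η) * N x ≤ p x ∧ p x ≤ N x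

theorem dual_sem (W : Seminorm ℝ E) {c C : ℝ} (hc : 0 < c) (hC : 0 < C) (h1 : ∀ x, c * ‖x‖ ≤ W x)
    (h2 : ∀ x, W x ≤ C * ‖x‖) : ∃ D : Seminorm ℝ (StrongDual ℝ E), (∀ f, D f = dualNorm W f) ∧
      (∀ x f, f x ≤ D f * W x) ∧ (∀ f b, (∀ x, W x ≤ 1 → f x ≤ b) → D f ≤ b) ∧
      (∀ f, D f ≤ c⁻¹ * ‖f‖) ∧ ∀ f, ‖f‖ ≤ C * D f := by
  obtain ⟨D, D1, D2⟩ := supSem (NormedSpace.inclusionInDoubleDual ℝ E '' {x | W x ≤ 1})
    ⟨_, 0, by simp, rfl⟩ (by
      rintro _ ⟨x, hx, rfl⟩
      exact ⟨-x, by simpa using hx, map_neg _ _⟩) c⁻¹ (by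
      rintro _ ⟨x, hx, rfl⟩
      refine (NormedSpace.double_dual_bound ℝ E x).trans ?_
      rw [← one_div, le_div_iff₀ hc]
      linarith [h1 x, show W x ≤ 1 from hx])
  have D1' : ∀ x, W x ≤ 1 → ∀ f : StrongDual ℝ E, f x ≤ D f := fun x hx f =>
    D1 _ ⟨x, hx, rfl⟩ f
  have D2' : ∀ (f : StrongDual ℝ E) b, (∀ x, W x ≤ 1 → f x ≤ b) → D f ≤ b := fun f b h =>
    D2 _ _ (by
      rintro _ ⟨x, hx, rfl⟩
      exact h x hx)
  have D3 : ∀ x (f : StrongDual ℝ E), f x ≤ D f * W x := fun x f => by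
    by_cases hx : x = 0
    · simp [hx]
    have hN : 0 < W x := (mul_pos hc (norm_pos_iff.2 hx)).trans_le (h1 x)
    have := D1' ((W x)⁻¹ • x) (by
      rw [map_smul_eq_mul, norm_inv, Real.norm_of_nonneg hN.le, inv_mul_cancel₀ hN.ne']) f
    rw [map_smul, smul_eq_mul, inv_mul_le_iff₀ hN] at this
    linarith
  refine ⟨D, fun f => le_antisymm (D2' _ _ fun x hx => le_csSup ⟨D f, ?_⟩ ⟨x, hx, rfl⟩)
    (csSup_le ⟨_, 0, by simp, rfl⟩ ?_), D3, D2', fun f => D2' _ _ fun x hx => ?_, fun f => ?_⟩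
  · rintro _ ⟨y, hy, rfl⟩
    exact D1' y hy f
  · rintro _ ⟨y, hy, rfl⟩
    exact D1' y hy f
  · refine (le_abs_self _).trans ((f.le_opNorm x).trans ?_)
    rw [mul_comm]
    refine mul_le_mul_of_nonneg_right ?_ (norm_nonneg _)
    rw [← one_div, le_div_iff₀ hc]
    linarith [h1 x, show W x ≤ 1 from hx]
  · refine norm_le_of (mul_nonneg hC.le (apply_nonneg _ _)) fun y => ?_
    have a1 := D3 y f
    have a2 := mul_le_mul_of_nonneg_left (h2 y) (apply_nonneg D f)
    nlinarith

/-- a norm whose dual norm is locally uniformly rotund is Fréchet differentiable -/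
theorem frechet_of_lur {W : Seminorm ℝ E} (hW : IsEquivNorm W) (h : DualLUR W) : IsFrechet W := by
  obtain ⟨c, C, hc, hC, h12⟩ := hW
  obtain ⟨D, D0, D1, D2, D3, D4⟩ := dual_sem W hc hC (fun x => (h12 x).1) (fun x => (h12 x).2)
  intro x hx
  have hN : 0 < W x := (mul_pos hc (norm_pos_iff.2 hx)).trans_le (h12 x).1
  obtain ⟨f0, a1, a2⟩ := hb W (fun x => (h12 x).2) x
  have hD : ∀ f : StrongDual ℝ E, (∀ y, f y ≤ W y) → D f ≤ 1 := fun f hf =>
    D2 _ _ fun y hy => (hf y).trans hy
  refine (smulyan {f | ∀ y, f y ≤ W y} C (fun f hf => norm_le_of hC.le fun y =>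
    (hf y).trans (h12 y).2) W (fun f hf y => hf y) (fun y b hy => by
      obtain ⟨f, b1, b2⟩ := hb W (fun x => (h12 x).2) y
      rw [← b1]
      exact hy f b2) x f0 a2 a1.symm fun ε hε => ?_).differentiableAt
  by_contra hcon
  push Not at hcon
  choose g g1 g2 g3 using fun n : ℕ => hcon (1 / ((n : ℝ) + 1)) (by positivity)
  have l := h f0 g (by
    have t0 : Tendsto (fun n : ℕ => 4 * (1 / ((n : ℝ) + 1) / W x)) atTop (𝓝 0) := by
      simpa using (tendsto_one_div_add_atTop_nhds_zero_nat.div_const (W x)).const_mul 4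
    refine squeeze_zero (fun n => ?_) (fun n => ?_) t0
    · simp only [← D0]
      have := map_add_le_add D f0 (g n)
      have := apply_nonneg D (f0 + g n)
      nlinarith [sq_nonneg (D f0 - D (g n))]
    · simp only [← D0]
      have b1 := hD f0 a2
      have b2 := hD (g n) (g1 n)
      have b3 := apply_nonneg D f0
      have b4 := apply_nonneg D (g n)
      have b5 := D1 x (f0 + g n)
      rw [_root_.add_apply, a1] at b5
      have b6 := g2 n
      set t := 1 / ((n : ℝ) + 1) / W x with ht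
      have b7 : 1 / ((n : ℝ) + 1) = t * W x := by rw [ht]; field_simp
      rw [b7] at b6
      have b8 : 2 - t ≤ D (f0 + g n) := by
        have : (2 - t) * W x ≤ D (f0 + g n) * W x := by linarith
        exact le_of_mul_le_mul_right this hN
      have b9 := apply_nonneg D (f0 + g n)
      have b10 : 4 - 4 * t ≤ D (f0 + g n) ^ 2 := by
        rcases le_total 0 (2 - t) with hh | hh
        · have := pow_le_pow_left₀ hh b8 2
          nlinarith [sq_nonneg t]
        · nlinarith
      nlinarith)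
  obtain ⟨n, hn⟩ := (l.eventually (ball_mem_nhds f0 hε)).exists
  rw [dist_eq_norm] at hn
  exact (g3 n).not_gt hn

/-- the norm whose dual norm is the square root of a sum of squares of dual seminorms -/
theorem build (σ : ℕ → Seminorm ℝ (StrongDual ℝ E)) (K : ℕ → Set E)
    (k1 : ∀ m, ∀ z ∈ K m, ∀ f : StrongDual ℝ E, f z ≤ σ m f)
    (k2 : ∀ m (f : StrongDual ℝ E) b, (∀ z ∈ K m, f z ≤ b) → σ m f ≤ b) {a A : ℝ} (ha0 : 0 < a)
    (hA0 : 0 < A) (ha : ∀ f, ‖f‖ ≤ a * σ 0 f)
    (hA : ∀ n f, ∑ m ∈ Finset.range n, σ m f ^ 2 ≤ (A * ‖f‖) ^ 2) :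
    ∃ p : Seminorm ℝ E, (∀ x, A⁻¹ * ‖x‖ ≤ p x) ∧ (∀ x, p x ≤ a * ‖x‖) ∧
      (∀ f : StrongDual ℝ E, (∀ n, ∑ m ∈ Finset.range n, σ m f ^ 2 ≤ 1) ↔ ∀ x, f x ≤ p x) ∧
      (∀ x b, (∀ f : StrongDual ℝ E, (∀ n, ∑ m ∈ Finset.range n, σ m f ^ 2 ≤ 1) → f x ≤ b) →
        p x ≤ b) ∧
      ∀ m f g, 2 * σ m f ^ 2 + 2 * σ m g ^ 2 - σ m (f + g) ^ 2 ≤
        2 * dualNorm p f ^ 2 + 2 * dualNorm p g ^ 2 - dualNorm p (f + g) ^ 2 := by
  let Φ : ℕ → StrongDual ℝ E → ℝ := fun n f => ∑ m ∈ Finset.range n, σ m f ^ 2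
  have Φs : ∀ n (r : ℝ) f, Φ n (r • f) = r ^ 2 * Φ n f := fun n r f => by
    simp only [Φ, map_smul_eq_mul, mul_pow, Real.norm_eq_abs, sq_abs, Finset.mul_sum]
  have Φm : ∀ f, Monotone fun n => Φ n f := fun f => monotone_nat_of_le_succ fun n => by
    simp only [Φ, Finset.sum_range_succ]
    have : 0 ≤ σ n f ^ 2 := by positivity
    linarith
  have Φ0 : ∀ n f, 0 ≤ Φ n f := fun n f => Finset.sum_nonneg fun m _ => sq_nonneg _
  let B : Set (StrongDual ℝ E) := {f | ∀ n, Φ n f ≤ 1}
  have B2 : ∀ f ∈ B, ‖f‖ ≤ a := fun f hf => by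
    have h := hf 1
    simp only [Φ, Finset.range_one, Finset.sum_singleton] at h
    have h1 : σ 0 f ≤ 1 := by nlinarith [apply_nonneg (σ 0) f]
    nlinarith [ha f]
  have B3 : ∀ f ∈ B, -f ∈ B := fun f hf n => by
    rw [← neg_one_smul ℝ f, Φs]
    simpa using hf n
  have B0 : (0 : StrongDual ℝ E) ∈ B := fun n => by simp [Φ]
  obtain ⟨p, p1, p2⟩ := supSem B ⟨0, B0⟩ B3 a B2
  have q1 : ∀ x, A⁻¹ * ‖x‖ ≤ p x := fun x => by
    obtain ⟨f, a1, a2⟩ := exists_dual_vector'' ℝ x
    have := p1 (A⁻¹ • f) (fun n => by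
      rw [Φs]
      have h1 := hA n f
      have h2 : (A * ‖f‖) ^ 2 ≤ A ^ 2 := by
        have := mul_le_mul_of_nonneg_left a1 hA0.le
        rw [mul_one] at this
        exact pow_le_pow_left₀ (by positivity) this 2
      rw [inv_pow, inv_mul_le_iff₀ (by positivity), mul_one]
      exact h1.trans h2) x
    rw [_root_.smul_apply, a2, smul_eq_mul] at this
    exact this
  have q2 : ∀ x, p x ≤ a * ‖x‖ := fun x => p2 _ _ fun f hf =>
    (le_abs_self _).trans ((f.le_opNorm x).trans
      (mul_le_mul_of_nonneg_right (B2 f hf) (norm_nonneg _)))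
  have q3 : ∀ f : StrongDual ℝ E, (∀ n, Φ n f ≤ 1) ↔ ∀ x, f x ≤ p x := by
    refine fun f => ⟨fun hf x => p1 f hf x, fun hf n => ?_⟩
    -- the polar argument
    set T := ∑ m ∈ Finset.range n, σ m f with hT
    have hT0 : 0 ≤ T := Finset.sum_nonneg fun m _ => apply_nonneg _ _
    have key : ∀ ε > 0, Φ n f - ε * T ≤ √(Φ n f) := by
      intro ε hε
      have hk : ∀ m, ∃ z ∈ K m, σ m f - ε ≤ f z := fun m => by
        by_contra hcon
        push Not at hcon
        have := k2 m f (σ m f - ε) fun z hz => (hcon z hz).le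
        linarith
      choose z z1 z2 using hk
      have e1 : Φ n f - ε * T ≤ f (∑ m ∈ Finset.range n, σ m f • z m) := by
        rw [map_sum, hT, Finset.mul_sum]
        simp only [Φ]
        rw [← Finset.sum_sub_distrib]
        refine Finset.sum_le_sum fun m _ => ?_
        rw [map_smul, smul_eq_mul]
        nlinarith [mul_le_mul_of_nonneg_left (z2 m) (apply_nonneg (σ m) f)]
      refine e1.trans ((hf _).trans (p2 _ _ fun g hg => ?_))
      rw [map_sum]
      have e2 : ∑ m ∈ Finset.range n, g (σ m f • z m) ≤ ∑ m ∈ Finset.range n, σ m f * σ m g :=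
        Finset.sum_le_sum fun m _ => by
          rw [map_smul, smul_eq_mul]
          exact mul_le_mul_of_nonneg_left (k1 m _ (z1 m) g) (apply_nonneg _ _)
      refine e2.trans (Real.le_sqrt_of_sq_le ?_)
      refine (Finset.sum_mul_sq_le_sq_mul_sq _ _ _).trans ?_
      have := hg n
      have h0 := Φ0 n f
      simp only [Φ] at this h0 ⊢
      nlinarith
    have key2 : Φ n f ≤ √(Φ n f) := by
      refine le_of_forall_pos_le_add fun δ hδ => ?_
      have := key (δ / (T + 1)) (by positivity)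
      have h2 : δ / (T + 1) * T ≤ δ := by
        rw [div_mul_eq_mul_div, div_le_iff₀ (by positivity)]
        nlinarith
      linarith
    by_contra hcon
    push Not at hcon
    have h3 := Real.sq_sqrt (Φ0 n f)
    have h4 : 1 < √(Φ n f) := Real.lt_sqrt_of_sq_lt (by simpa using hcon)
    nlinarith
  refine ⟨p, q1, q2, q3, fun x b h => p2 x b fun f hf => h f hf, ?_⟩
  obtain ⟨D, D0, D1, D2, D3, D4⟩ := dual_sem p (inv_pos.2 hA0) ha0 q1 q2
  have DB : ∀ f : StrongDual ℝ E, D f ≤ 1 ↔ ∀ n, Φ n f ≤ 1 := fun f => by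
    rw [q3]
    refine ⟨fun h x => (D1 x f).trans ?_, fun h => D2 _ _ fun x hx => (h x).trans hx⟩
    exact mul_le_of_le_one_left (apply_nonneg _ _) h
  have E1 : ∀ n f, Φ n f ≤ D f ^ 2 := fun n f => by
    by_cases hf : D f = 0
    · have : f = 0 := by
        have := D4 f
        rw [hf, mul_zero] at this
        exact norm_le_zero_iff.1 this
      simp [this, Φ]
    · have hpos : 0 < D f := lt_of_le_of_ne (apply_nonneg _ _) (Ne.symm hf)
      have := (DB ((D f)⁻¹ • f)).1 (by
        rw [map_smul_eq_mul, norm_inv, Real.norm_of_nonneg hpos.le, inv_mul_cancel₀ hf]) n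
      rw [Φs, inv_pow, inv_mul_le_iff₀ (by positivity), mul_one] at this
      exact this
  have E2 : ∀ f s, (∀ n, Φ n f ≤ s) → D f ^ 2 ≤ s := fun f s hs => by
    have s0 : 0 ≤ s := (Φ0 0 f).trans (hs 0)
    rcases s0.eq_or_lt with h0 | h0
    · have h := hs 1
      simp only [Φ, Finset.range_one, Finset.sum_singleton] at h
      have h1 : σ 0 f = 0 := by nlinarith [apply_nonneg (σ 0) f]
      have h2 := ha f
      rw [h1, mul_zero] at h2
      have : f = 0 := norm_le_zero_iff.1 h2
      simp [this, ← h0]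
    · have hr : 0 < √s := Real.sqrt_pos.2 h0
      have := (DB ((√s)⁻¹ • f)).2 fun n => by
        rw [Φs, inv_pow, Real.sq_sqrt s0, inv_mul_le_iff₀ h0, mul_one]
        exact hs n
      rw [map_smul_eq_mul, norm_inv, Real.norm_of_nonneg hr.le, inv_mul_le_iff₀ hr, mul_one] at this
      calc D f ^ 2 ≤ (√s) ^ 2 := pow_le_pow_left₀ (apply_nonneg _ _) this 2
        _ = s := Real.sq_sqrt s0
  intro m f g
  rw [← D0, ← D0, ← D0]
  have hpar : ∀ i, 0 ≤ 2 * σ i f ^ 2 + 2 * σ i g ^ 2 - σ i (f + g) ^ 2 := fun i => by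
    have := map_add_le_add (σ i) f g
    have := apply_nonneg (σ i) (f + g)
    nlinarith [sq_nonneg (σ i f - σ i g)]
  have := E2 (f + g) (2 * D f ^ 2 + 2 * D g ^ 2 - (2 * σ m f ^ 2 + 2 * σ m g ^ 2 -
    σ m (f + g) ^ 2)) fun n => by
    refine (Φm _ (le_max_left n (m + 1))).trans ?_
    have e1 := E1 (max n (m + 1)) f
    have e2 := E1 (max n (m + 1)) g
    have e3 := Finset.single_le_sum (f := fun i => 2 * σ i f ^ 2 + 2 * σ i g ^ 2 -
      σ i (f + g) ^ 2) (s := Finset.range (max n (m + 1))) (fun i _ => hpar i)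
      (Finset.mem_range.2 ((Nat.lt_succ_self m).trans_le (le_max_right _ _)))
    simp only [Finset.sum_sub_distrib, Finset.sum_add_distrib, ← Finset.mul_sum] at e3
    simp only [Φ] at e1 e2 ⊢
    linarith
  linarith

/-- an equivalent norm with locally uniformly rotund dual norm makes Fréchet differentiable norms
dense -/
theorem dense_of_lur {W : Seminorm ℝ E} (hW : IsEquivNorm W) (h : DualLUR W) : FrechetDense E := by
  obtain ⟨a, b, ha, hb', hab⟩ := hW
  obtain ⟨F, F0, F1, F2, F3, F4⟩ := dual_sem W ha hb' (fun x => (hab x).1) (fun x => (hab x).2)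
  intro N hN η hη hη1
  obtain ⟨c, C, hc, hC, hcC⟩ := hN
  obtain ⟨D, D0, D1, D2, D3, D4⟩ := dual_sem N hc hC (fun x => (hcC x).1) (fun x => (hcC x).2)
  set L : ℝ := a⁻¹ * C with hL
  have hL0 : 0 < L := by positivity
  have FL : ∀ f, F f ≤ L * D f := fun f => by
    have := F3 f
    have := mul_le_mul_of_nonneg_left (D4 f) (inv_pos.2 ha).le
    rw [hL]
    linarith
  set θ : ℝ := η / L with hθ
  have hθ0 : 0 < θ := by positivity
  let σ : ℕ → Seminorm ℝ (StrongDual ℝ E) := fun m =>
    match m with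
    | 0 => D
    | 1 => NNReal.mk θ hθ0.le • F
    | _ + 2 => 0
  have σ0 : ∀ f, σ 0 f = D f := fun f => rfl
  have σ1 : ∀ f, σ 1 f = θ * F f := fun f => rfl
  have σ2 : ∀ m f, σ (m + 2) f = 0 := fun m f => rfl
  have hθF : ∀ f, θ * F f ≤ η * D f := fun f => by
    have := mul_le_mul_of_nonneg_left (FL f) hθ0.le
    rw [hθ] at this ⊢
    have e : η / L * (L * D f) = η * D f := by field_simp
    linarith
  let K : ℕ → Set E := fun m =>
    match m with
    | 0 => {x | N x ≤ 1}
    | 1 => (fun x => θ • x) '' {x | W x ≤ 1}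
    | _ + 2 => {0}
  have hΦ : ∀ n f, ∑ m ∈ Finset.range n, σ m f ^ 2 ≤ D f ^ 2 + (θ * F f) ^ 2 := fun n f => by
    rcases n with _ | _ | n
    · simp; positivity
    · simp only [zero_add, Finset.range_one, Finset.sum_singleton, σ0]
      nlinarith [sq_nonneg (θ * F f)]
    · rw [Finset.sum_range_succ', Finset.sum_range_succ']
      simp only [σ2, zero_add, σ1, σ0]
      simp
      linarith
  obtain ⟨p, p1, p2, p3, p4, p5⟩ := build (E := E) σ K (fun m z hz f => by
      rcases m with _ | _ | m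
      · have := D1 z f
        have hz' : N z ≤ 1 := hz
        rw [σ0]
        exact this.trans (mul_le_of_le_one_right (apply_nonneg _ _) hz')
      · obtain ⟨x, hx, rfl⟩ := hz
        have := F1 x f
        have hx' : W x ≤ 1 := hx
        have h3 : f x ≤ F f := this.trans (mul_le_of_le_one_right (apply_nonneg _ _) hx')
        show f (θ • x) ≤ θ * F f
        rw [map_smul, smul_eq_mul]
        exact mul_le_mul_of_nonneg_left h3 hθ0.le
      · have hz' : z = 0 := hz
        rw [hz', map_zero]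
        exact (σ2 m f).ge)
    (fun m f b hfb => by
      rcases m with _ | _ | m
      · rw [σ0]
        exact D2 f b fun x hx => hfb x hx
      · show θ * F f ≤ b
        have := F2 f (θ⁻¹ * b) fun x hx => by
          have := hfb (θ • x) ⟨x, hx, rfl⟩
          rw [map_smul, smul_eq_mul] at this
          rw [le_inv_mul_iff₀ hθ0]
          exact this
        rw [le_inv_mul_iff₀ hθ0] at this
        exact this
      · exact (σ2 m f).le.trans (by simpa using hfb 0 rfl))
    (a := C) (A := 2 * c⁻¹) hC (by positivity) (fun f => D4 f) (fun n f => by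
      refine (hΦ n f).trans ?_
      have e1 := D3 f
      have e2 := hθF f
      have e3 := apply_nonneg D f
      have e4 : 0 ≤ θ * F f := mul_nonneg hθ0.le (apply_nonneg _ _)
      have e5 : θ * F f ≤ D f := e2.trans (mul_le_of_le_one_left e3 hη1.le)
      nlinarith)
  have hp : IsEquivNorm p := ⟨_, _, by positivity, hC, fun x => ⟨p1 x, p2 x⟩⟩
  obtain ⟨G, G0, G1, G2, G3, G4⟩ := dual_sem p (c := (2 * c⁻¹)⁻¹) (by positivity) hC p1 p2
  refine ⟨p, frechet_of_lur hp fun f g hfg => h f g ?_, fun x => ⟨?_, ?_⟩⟩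
  · have l := hfg.const_mul (θ⁻¹ ^ 2)
    rw [mul_zero] at l
    refine squeeze_zero (fun n => ?_) (fun n => ?_) l
    · simp only [← F0]
      have := map_add_le_add F f (g n)
      have := apply_nonneg F (f + g n)
      nlinarith [sq_nonneg (F f - F (g n))]
    · have := p5 1 f (g n)
      simp only [σ1, F0] at this
      rw [inv_pow, le_inv_mul_iff₀ (by positivity)]
      linarith
  · obtain ⟨f, a1, a2⟩ := hb N (fun x => (hcC x).2) x
    have a4 : D f ≤ 1 := D2 _ _ fun y hy => (a2 y).trans hy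
    have a5 : ∀ n, ∑ m ∈ Finset.range n, σ m ((1 - η) • f) ^ 2 ≤ 1 := fun n => by
      refine (hΦ n _).trans ?_
      rw [map_smul_eq_mul, map_smul_eq_mul, Real.norm_of_nonneg (by linarith : (0:ℝ) ≤ 1 - η)]
      have e2 := hθF f
      have e3 := apply_nonneg D f
      have e4 : 0 ≤ θ * F f := mul_nonneg hθ0.le (apply_nonneg _ _)
      have e5 : θ * F f ≤ η := e2.trans (mul_le_of_le_one_right hη.le a4)
      have e6 : D f ^ 2 + (θ * F f) ^ 2 ≤ 1 + η ^ 2 := by nlinarith
      have e7 : (1 - η) ^ 2 * (1 + η ^ 2) ≤ 1 := by nlinarith [mul_pos hη hη, mul_pos (mul_pos hη hη) hη]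
      calc ((1 - η) * D f) ^ 2 + (θ * ((1 - η) * F f)) ^ 2
          = (1 - η) ^ 2 * (D f ^ 2 + (θ * F f) ^ 2) := by ring
        _ ≤ (1 - η) ^ 2 * (1 + η ^ 2) := mul_le_mul_of_nonneg_left e6 (sq_nonneg _)
        _ ≤ 1 := e7
    have := (p3 _).1 a5 x
    rwa [_root_.smul_apply, a1] at this
  · refine p4 x _ fun f hf => ?_
    have h1 := hf 1
    simp only [Finset.range_one, Finset.sum_singleton, σ0] at h1
    have h2 : D f ≤ 1 := by nlinarith [apply_nonneg D f]
    exact (D1 x f).trans (mul_le_of_le_one_left (apply_nonneg _ _) h2)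

/-- `‖h‖ ≤ b` from a bound on the unit ball -/
theorem nle {h : StrongDual ℝ E} {b : ℝ} (hb : ∀ z, ‖z‖ ≤ 1 → h z ≤ b) : ‖h‖ ≤ b := by
  have b0 : 0 ≤ b := by simpa using hb 0 (by simp)
  refine norm_le_of b0 fun y => ?_
  by_cases hy : y = 0
  · simp [hy]
  have hn : 0 < ‖y‖ := norm_pos_iff.2 hy
  have := hb (‖y‖⁻¹ • y) (by rw [norm_smul, norm_inv, norm_norm, inv_mul_cancel₀ hn.ne'])
  rw [map_smul, smul_eq_mul, inv_mul_le_iff₀ hn] at this
  linarith

/-- (Kadec) a space with separable dual has an equivalent norm whose dual norm is locally uniformly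
rotund -/
theorem lur_of_separable [TopologicalSpace.SeparableSpace (StrongDual ℝ E)] :
    ∃ W : Seminorm ℝ E, IsEquivNorm W ∧ DualLUR W := by
  obtain ⟨g, hg⟩ := TopologicalSpace.exists_dense_seq (StrongDual ℝ E)
  choose xm hx1 hx2 using fun m => exists_xm (g m)
  let T : ℕ → StrongDual ℝ E →L[ℝ] StrongDual ℝ E := fun m =>
    ContinuousLinearMap.id ℝ _ - (ContinuousLinearMap.apply ℝ ℝ (xm m)).smulRight (g m)
  let τ : ℕ → Seminorm ℝ (StrongDual ℝ E) := fun m => (normSeminorm ℝ _).comp (T m).toLinearMap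
  have τ0 : ∀ m f, τ m f = ‖f - f (xm m) • g m‖ := fun m f => rfl
  have τ1 : ∀ m f, τ m f ≤ 3 * ‖f‖ := fun m f => by
    rw [τ0]
    refine (norm_sub_le _ _).trans ?_
    rw [norm_smul]
    have a1 := mul_le_mul_of_nonneg_right (f.le_opNorm (xm m)) (norm_nonneg (g m))
    have a2 := mul_le_mul_of_nonneg_left (hx1 m) (norm_nonneg f)
    nlinarith
  let w : ℕ → ℝ := fun m => (1 / 2) ^ m
  have w0 : ∀ m, 0 < w m := fun m => by positivity
  let σ : ℕ → Seminorm ℝ (StrongDual ℝ E) := fun m =>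
    match m with
    | 0 => normSeminorm ℝ _
    | m + 1 => NNReal.mk (w m) (w0 m).le • τ m
  have σ0 : ∀ f, σ 0 f = ‖f‖ := fun f => rfl
  have σ1 : ∀ m f, σ (m + 1) f = w m * τ m f := fun m f => rfl
  let K : ℕ → Set E := fun m =>
    match m with
    | 0 => {x | ‖x‖ ≤ 1}
    | m + 1 => (fun z => w m • (z - g m z • xm m)) '' {x | ‖x‖ ≤ 1}
  obtain ⟨p, p1, p2, p3, p4, p5⟩ := build (E := E) σ K (fun m z hz f => by
      rcases m with _ | m
      · have hz' : ‖z‖ ≤ 1 := hz
        rw [σ0]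
        exact (le_abs_self _).trans ((f.le_opNorm z).trans
          (mul_le_of_le_one_right (norm_nonneg _) hz'))
      · obtain ⟨x, hx, rfl⟩ := hz
        have hx' : ‖x‖ ≤ 1 := hx
        show f (w m • (x - g m x • xm m)) ≤ w m * ‖f - f (xm m) • g m‖
        have e : f (w m • (x - g m x • xm m)) = w m * (f - f (xm m) • g m) x := by
          simp only [map_smul, map_sub, smul_eq_mul, _root_.sub_apply, _root_.smul_apply]
          ring
        rw [e]
        exact mul_le_mul_of_nonneg_left ((le_abs_self _).trans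
          (((f - f (xm m) • g m).le_opNorm x).trans
          (mul_le_of_le_one_right (norm_nonneg _) hx'))) (w0 m).le)
    (fun m f b hfb => by
      rcases m with _ | m
      · rw [σ0]
        exact nle fun z hz => hfb z hz
      · show w m * ‖f - f (xm m) • g m‖ ≤ b
        rw [← le_inv_mul_iff₀ (w0 m)]
        refine nle fun z hz => ?_
        rw [le_inv_mul_iff₀ (w0 m)]
        have := hfb _ ⟨z, hz, rfl⟩
        simp only [map_smul, map_sub, smul_eq_mul] at this
        simp only [_root_.sub_apply, _root_.smul_apply, smul_eq_mul]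
        linarith)
    (a := 1) (A := 5) one_pos (by norm_num) (fun f => by rw [σ0, one_mul]) (fun n f => by
      have hn0 : ∀ n, ∑ m ∈ Finset.range n, σ (m + 1) f ^ 2 ≤ 18 * ‖f‖ ^ 2 := fun n => by
        have e1 : ∑ m ∈ Finset.range n, σ (m + 1) f ^ 2 ≤
            ∑ m ∈ Finset.range n, 9 * ‖f‖ ^ 2 * (1 / 2) ^ m := Finset.sum_le_sum fun m _ => by
          rw [σ1, mul_pow]
          have h1 := pow_le_pow_left₀ (apply_nonneg _ _) (τ1 m f) 2
          have h2 : w m ^ 2 ≤ (1 / 2) ^ m := by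
            have : w m ≤ 1 := pow_le_one₀ (by norm_num) (by norm_num)
            show w m ^ 2 ≤ w m
            nlinarith [w0 m]
          have h3 := mul_le_mul h2 h1 (sq_nonneg _) (by positivity)
          nlinarith
        rw [← Finset.mul_sum] at e1
        have e2 := mul_le_mul_of_nonneg_left (sum_geometric_two_le n)
          (show 0 ≤ 9 * ‖f‖ ^ 2 by positivity)
        linarith
      rcases n with _ | n
      · simp
        try positivity
      · rw [Finset.sum_range_succ', σ0]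
        have := hn0 n
        nlinarith [sq_nonneg ‖f‖])
  have hp : IsEquivNorm p := ⟨_, _, by norm_num, one_pos, fun x => ⟨p1 x, p2 x⟩⟩
  obtain ⟨D, D0, D1, D2, D3, D4⟩ := dual_sem p (c := (5 : ℝ)⁻¹) (by norm_num) one_pos p1 p2
  rw [inv_inv] at D3
  simp only [one_mul] at D4
  refine ⟨p, hp, fun f h hfh => ?_⟩
  simp only [← D0] at hfh p5
  set δ : ℕ → ℝ := fun n => 2 * D f ^ 2 + 2 * D (h n) ^ 2 - D (f + h n) ^ 2 with hδ
  -- convergence of seminorms
  have conv : ∀ (q : Seminorm ℝ (StrongDual ℝ E)) (κ : ℝ), 0 < κ →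
      (∀ n, κ * (2 * q f ^ 2 + 2 * q (h n) ^ 2 - q (f + h n) ^ 2) ≤ δ n) →
      Tendsto (fun n => q (h n)) atTop (𝓝 (q f)) := by
    intro q κ hκ hq
    rw [tendsto_iff_dist_tendsto_zero]
    have l : Tendsto (fun n => √(κ⁻¹ * δ n)) atTop (𝓝 0) := by
      have := (hfh.const_mul κ⁻¹).sqrt
      simpa using this
    refine squeeze_zero (fun n => dist_nonneg) (fun n => ?_) l
    rw [Real.dist_eq]
    refine Real.abs_le_sqrt ?_
    rw [le_inv_mul_iff₀ hκ]
    refine le_trans (mul_le_mul_of_nonneg_left ?_ hκ.le) (hq n)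
    have h1 := map_add_le_add q f (h n)
    have h2 := apply_nonneg q (f + h n)
    nlinarith
  have cD : Tendsto (fun n => D (h n)) atTop (𝓝 (D f)) := conv D 1 one_pos fun n => by
    rw [one_mul]
  have cτ : ∀ m, Tendsto (fun n => τ m (h n)) atTop (𝓝 (τ m f)) := fun m =>
    conv (τ m) (w m ^ 2) (by have := w0 m; positivity) fun n => by
      have := p5 (m + 1) f (h n)
      simp only [σ1] at this
      simp only [hδ]
      linarith
  have cs : Tendsto (fun n => D (f + h n)) atTop (𝓝 (2 * D f)) := by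
    have l : Tendsto (fun n => √(2 * D f ^ 2 + 2 * D (h n) ^ 2 - δ n)) atTop
        (𝓝 (√(2 * D f ^ 2 + 2 * D f ^ 2 - 0))) :=
      (((((cD.pow 2).const_mul 2).const_add _).sub hfh)).sqrt
    have e1 : √(2 * D f ^ 2 + 2 * D f ^ 2 - 0) = 2 * D f := by
      rw [show 2 * D f ^ 2 + 2 * D f ^ 2 - 0 = (2 * D f) ^ 2 by ring]
      exact Real.sqrt_sq (by have := apply_nonneg D f; positivity)
    rw [e1] at l
    refine l.congr fun n => ?_
    simp only [hδ]
    rw [show 2 * D f ^ 2 + 2 * D (h n) ^ 2 - (2 * D f ^ 2 + 2 * D (h n) ^ 2 - D (f + h n) ^ 2) =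
      D (f + h n) ^ 2 by ring]
    exact Real.sqrt_sq (apply_nonneg _ _)
  by_cases hf0 : f = 0
  · subst hf0
    rw [tendsto_zero_iff_norm_tendsto_zero]
    rw [map_zero] at cD
    exact squeeze_zero (fun n => norm_nonneg _) (fun n => D4 _) cD
  have hfn : 0 < ‖f‖ := norm_pos_iff.2 hf0
  have hDf : 0 < D f := hfn.trans_le (D4 f)
  set Q : ℝ := D f + 1 with hQ
  set R : ℝ := 2 * (Q + 2 * ‖f‖) / ‖f‖ with hR
  have hR0 : 0 < R := by positivity
  set G : ℝ := 1 + 5 * (4 + R) with hG
  have hG0 : 0 < G := by positivity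
  rw [tendsto_iff_norm_sub_tendsto_zero]
  refine tendsto_order.2 ⟨fun b hb => .of_forall fun n => hb.trans_le (norm_nonneg _),
    fun ε hε => ?_⟩
  set H : ℝ := (4 + R) + G * ‖f‖ / D f with hH
  have hH0 : 0 < H := by positivity
  obtain ⟨e, e0, e1, e2, e3, e4⟩ : ∃ e : ℝ, 0 < e ∧ e ≤ ‖f‖ / 2 ∧ e ≤ 1 ∧ G * e ≤ D f / 2 ∧
      H * e < ε := by
    refine ⟨min (‖f‖ / 2) (min 1 (min (D f / 2 / G) (ε / (2 * H)))), ?_, ?_, ?_, ?_, ?_⟩
    · refine lt_min (by positivity) (lt_min one_pos (lt_min (by positivity) (by positivity)))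
    · exact min_le_left _ _
    · exact (min_le_right _ _).trans (min_le_left _ _)
    · have := (min_le_right (‖f‖ / 2) (min 1 (min (D f / 2 / G) (ε / (2 * H))))).trans
        ((min_le_right _ _).trans (min_le_left _ _))
      rw [le_div_iff₀ hG0] at this
      linarith
    · have := (min_le_right (‖f‖ / 2) (min 1 (min (D f / 2 / G) (ε / (2 * H))))).trans
        ((min_le_right _ _).trans (min_le_right _ _))
      rw [le_div_iff₀ (by positivity)] at this
      linarith
  obtain ⟨m, hm⟩ := hg.exists_dist_lt f e0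
  rw [dist_eq_norm] at hm
  have c3 : τ m f ≤ 3 * e := by
    have d1 := map_add_le_add (τ m) (f - g m) (g m)
    rw [sub_add_cancel, τ0 m (g m), hx2, norm_zero] at d1
    linarith [τ1 m (f - g m)]
  have cg : ‖f‖ / 2 ≤ ‖g m‖ := by
    have := norm_sub_norm_le f (g m)
    linarith
  filter_upwards [(cτ m).eventually_lt_const (show τ m f < 4 * e by linarith),
    cD.eventually_lt_const (show D f < D f + e by linarith),
    cs.eventually_const_lt (show 2 * D f - e < 2 * D f by linarith)] with n n1 n2 n3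
  set t := h n (xm m) with ht
  have n1' : ‖h n - t • g m‖ < 4 * e := n1
  have m1 : ‖h n‖ ≤ Q := (D4 _).trans (by linarith)
  have m2 : |t| * ‖g m‖ ≤ Q + 2 * ‖f‖ := by
    have := norm_sub_norm_le (t • g m) (h n)
    rw [norm_smul, Real.norm_eq_abs, norm_sub_rev] at this
    linarith
  have m3 : |t| ≤ R := by
    rw [hR, le_div_iff₀ hfn]
    have := mul_le_mul_of_nonneg_left cg (abs_nonneg t)
    linarith
  have m4 : ‖h n - t • f‖ ≤ (4 + R) * e := by
    have e5 : h n - t • f = (h n - t • g m) - t • (f - g m) := by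
      rw [smul_sub]; abel
    rw [e5]
    refine (norm_sub_le _ _).trans ?_
    rw [norm_smul, Real.norm_eq_abs]
    have := mul_le_mul m3 hm.le (norm_nonneg _) hR0.le
    linarith
  have m5 : D (h n - t • f) ≤ 5 * (4 + R) * e := by
    have := D3 (h n - t • f)
    linarith
  have m6 : |t| * D f ≤ D f + G * e := by
    have := map_sub_le_add D (h n) (h n - t • f)
    rw [sub_sub_cancel, map_smul_eq_mul, Real.norm_eq_abs] at this
    rw [hG]
    linarith
  have m7 : 2 * D f - G * e ≤ |1 + t| * D f := by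
    have := map_add_le_add D ((1 + t) • f) (h n - t • f)
    rw [show (1 + t) • f + (h n - t • f) = f + h n by rw [add_smul, one_smul]; abel,
      map_smul_eq_mul, Real.norm_eq_abs] at this
    rw [hG]
    linarith
  have m8 : |t - 1| * D f ≤ G * e := by
    rcases le_total 0 (1 + t) with ht1 | ht1
    · rw [abs_of_nonneg ht1] at m7
      rcases le_total 0 (t - 1) with ht2 | ht2
      · rw [abs_of_nonneg ht2]
        rw [abs_of_nonneg (by linarith)] at m6
        linarith
      · rw [abs_of_nonpos ht2]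
        linarith
    · exfalso
      rw [abs_of_nonpos ht1] at m7
      rw [abs_of_nonpos (by linarith)] at m6
      linarith
  have m9 : |t - 1| * ‖f‖ ≤ G * ‖f‖ / D f * e := by
    rw [div_mul_eq_mul_div, le_div_iff₀ hDf]
    have := mul_le_mul_of_nonneg_right m8 hfn.le
    linarith
  have m10 : ‖h n - f‖ ≤ ‖h n - t • f‖ + |t - 1| * ‖f‖ := by
    have e5 : h n - f = (h n - t • f) + (t - 1) • f := by
      ext z
      simp only [_root_.sub_apply, _root_.add_apply, _root_.smul_apply, smul_eq_mul]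
      ring
    rw [e5]
    refine (norm_add_le _ _).trans ?_
    rw [norm_smul, Real.norm_eq_abs]
  have : H * e = (4 + R) * e + G * ‖f‖ / D f * e := by rw [hH]; ring
  linarith

theorem main (hdense : FrechetDense E) (Y : Submodule ℝ E)
    (hY : IsClosed (Y : Set E)) (N : Seminorm ℝ Y) {c C : ℝ} (hc : 0 < c) (hC : 0 < C)
    (h1 : ∀ y, c * ‖y‖ ≤ N y) (h2 : ∀ y, N y ≤ C * ‖y‖)
    (hd : ∀ y : Y, y ≠ 0 → DifferentiableAt ℝ N y) :
    ∃ M : Seminorm ℝ E, (∃ c C : ℝ, 0 < c ∧ 0 < C ∧ ∀ x, c * ‖x‖ ≤ M x ∧ M x ≤ C * ‖x‖) ∧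
      (∀ x, x ≠ 0 → DifferentiableAt ℝ M x) ∧ ∀ y : Y, M (y : E) = N y := by
  obtain ⟨R, M, hM, R1, R2, R3, R4⟩ := exists_R Y N hc hC h1 h2 hd
  let d : Seminorm ℝ E := (normSeminorm ℝ (E ⧸ Y)).comp Y.mkQ
  have d1 : ∀ x, d x ≤ ‖x‖ := fun x => Submodule.Quotient.norm_mk_le Y x
  have d2 : ∀ y : Y, d y = 0 := fun y => by
    show ‖Y.mkQ y‖ = 0
    rw [Submodule.mkQ_apply, (Submodule.Quotient.mk_eq_zero Y).2 y.2, norm_zero]
  have d3 : ∀ x, x ∉ Y → 0 < d x := fun x hx =>
    norm_pos_iff.2 fun h => hx ((Submodule.Quotient.mk_eq_zero Y).1 h)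
  let s : ℕ → ℝ := fun k => (1 / 2) ^ (k + 1)
  have s0 : ∀ k, 0 < s k := fun k => by positivity
  have s1 : ∀ k, s k ≤ 1 / 2 := fun k => by
    simp only [s, pow_succ]
    exact mul_le_of_le_one_left (by norm_num) (pow_le_one₀ (by norm_num) (by norm_num))
  have s2 : ∀ k, s (k + 1) = s k / 2 := fun k => by simp only [s, pow_succ]; ring
  have s3 : Tendsto s atTop (𝓝 0) :=
    (tendsto_pow_atTop_nhds_zero_of_lt_one (by norm_num) (by norm_num)).comp
      (tendsto_add_atTop_nat 1)
  have s4 : Antitone s := antitone_nat_of_succ_le fun k => by rw [s2]; linarith [s0 k]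
  clear_value s
  have hp : ∀ k, ∃ p : Seminorm ℝ E,
      (∀ x, (1 - s k ^ 2 / 8) * ((1 - s k ^ 2) * R x + s k * d x) ≤ p x) ∧
      (∀ x, p x ≤ (1 - s k ^ 2) * R x + s k * d x) ∧ ∀ x, x ≠ 0 → DifferentiableAt ℝ p x := by
    intro k
    have a0 := s0 k
    have a1 := s1 k
    have a2 : 0 ≤ 1 - s k ^ 2 := by nlinarith
    let Nk : Seminorm ℝ E := NNReal.mk (1 - s k ^ 2) a2 • R + NNReal.mk (s k) a0.le • d
    have e : ∀ x, Nk x = (1 - s k ^ 2) * R x + s k * d x := fun x => rfl
    obtain ⟨p, b3, b⟩ := hdense Nk ⟨c / 4, M + 1, by linarith, by linarith, fun x => ⟨by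
        rw [e]
        have := R1 x
        have := mul_nonneg a0.le (apply_nonneg d x)
        have := mul_nonneg hc.le (norm_nonneg x)
        nlinarith [mul_le_mul_of_nonneg_right (show s k ^ 2 ≤ 1 / 2 by nlinarith)
          (apply_nonneg R x)], by
        rw [e]
        have := R2 x
        have := d1 x
        have := apply_nonneg d x
        nlinarith [mul_nonneg (sq_nonneg (s k)) (apply_nonneg R x)]⟩⟩ (s k ^ 2 / 8)
        (by positivity) (by nlinarith)
    have b1 := fun x => (b x).1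
    have b2 := fun x => (b x).2
    exact ⟨p, b1, b2, b3⟩
  choose p p1 p2 p3 using hp
  have p4 : ∀ k x, x ≠ 0 → 0 < p k x := fun k x hx => by
    have a0 := s0 k
    have a1 := s1 k
    have a2 : 0 < R x := (mul_pos (by linarith) (norm_pos_iff.2 hx)).trans_le (R1 x)
    refine lt_of_lt_of_le (mul_pos (by nlinarith) (add_pos_of_pos_of_nonneg
      (mul_pos (by nlinarith) a2) (mul_nonneg a0.le (apply_nonneg _ _)))) (p1 k x)
  choose Q Q1 Q2 Q3 Q4 Q5 using fun (P : Seminorm ℝ E) (k : ℕ) =>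
    smooth_max P (p (k + 1)) (η := s k ^ 2 / 8) (by have := s0 k; positivity)
  let P : ℕ → Seminorm ℝ E := fun k => Nat.rec (p 0) (fun k P => Q P k) k
  have P0 : P 0 = p 0 := rfl
  have Ps : ∀ k, P (k + 1) = Q (P k) k := fun k => rfl
  clear_value P
  have P1 : ∀ x, Monotone fun k => P k x := fun x => monotone_nat_of_le_succ fun k => by
    rw [Ps]; exact Q1 _ _ _
  have P2 : ∀ k x, p k x ≤ P k x := fun k x => by
    cases k with
    | zero => rw [P0]
    | succ k => rw [Ps]; exact Q2 _ _ _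
  have P3 : ∀ k x, x ≠ 0 → DifferentiableAt ℝ (P k) x := fun k x hx => by
    induction k with
    | zero => rw [P0]; exact p3 0 x hx
    | succ k ih => rw [Ps]; exact Q5 _ _ _ (p4 _ x hx) ih (p3 _ x hx)
  have P4 : ∀ x b, (∀ j, (1 - s j ^ 2 / 2) * R x + 2 * s j * d x ≤ b) →
      ∀ k, P k x ≤ (1 - s k ^ 2 / 8) * b := by
    intro x b hb
    have r0 := apply_nonneg R x
    have d0 := apply_nonneg d x
    have q : ∀ j, p j x ≤ (1 - s j ^ 2 / 2) * b := fun j => by
      have a0 := s0 j
      have a1 := s1 j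
      have a2 := mul_le_mul_of_nonneg_left (hb j) (show 0 ≤ 1 - s j ^ 2 / 2 by nlinarith)
      refine (p2 j x).trans (le_trans ?_ a2)
      have a3 : s j ^ 2 ≤ 1 := by nlinarith
      nlinarith [mul_nonneg (sq_nonneg (s j ^ 2)) r0,
        mul_nonneg (mul_nonneg a0.le d0) (sub_nonneg.2 a3)]
    have b0 : 0 ≤ b := by
      have a0 := s0 0
      have a1 := s1 0
      refine le_trans (add_nonneg (mul_nonneg (by nlinarith) r0) (by positivity)) (hb 0)
    intro k
    induction k with
    | zero =>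
      rw [P0]
      nlinarith [q 0, mul_nonneg (sq_nonneg (s 0)) b0]
    | succ k ih =>
      rw [Ps]
      refine (Q3 _ _ _ _ ih ((q (k + 1)).trans (le_of_eq ?_))).trans ?_
      · rw [s2]; ring
      · rw [s2]
        nlinarith [mul_nonneg (sq_nonneg (s k)) b0, mul_nonneg (sq_nonneg (s k ^ 2)) b0]
  have P5 : ∀ x b, (∀ j, (1 - s j ^ 2 / 2) * R x + 2 * s j * d x ≤ b) → ∀ k, P k x ≤ b := by
    intro x b hb k
    have a1 := P4 x b hb k
    have a2 := s1 k
    have a3 := s0 k
    have a4 : 0 ≤ b := by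
      by_contra hc
      have := mul_pos (show 0 < 1 - s k ^ 2 / 8 by nlinarith) (neg_pos.2 (not_le.1 hc))
      linarith [apply_nonneg (P k) x]
    nlinarith [mul_nonneg (sq_nonneg (s k)) a4]
  have P6 : ∀ x k, P k x ≤ (M + 1) * ‖x‖ := fun x => P5 x _ fun j => by
    have := R2 x
    have := d1 x
    have := apply_nonneg d x
    nlinarith [mul_nonneg (sq_nonneg (s j)) (apply_nonneg R x), s1 j, s0 j]
  have hbdd : BddAbove (range P) := Seminorm.bddAbove_range_iff.2 fun x =>
    ⟨(M + 1) * ‖x‖, by rintro _ ⟨k, rfl⟩; exact P6 x k⟩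
  have S1 : ∀ k x, P k x ≤ (⨆ k, P k) x := fun k x => le_ciSup hbdd k x
  have S2 : ∀ x b, (∀ k, P k x ≤ b) → (⨆ k, P k) x ≤ b := fun x b h => by
    rw [Seminorm.iSup_apply hbdd]
    exact ciSup_le h
  generalize (⨆ k, P k) = S at S1 S2
  have S3 : ∀ x, R x ≤ S x := fun x => by
    have l : Tendsto (fun k => (1 - s k ^ 2 / 8) * ((1 - s k ^ 2) * R x + s k * d x)) atTop
        (𝓝 ((1 - 0 ^ 2 / 8) * ((1 - 0 ^ 2) * R x + 0 * d x))) :=
      (((s3.pow 2).div_const 8).const_sub 1).mul
        ((((s3.pow 2).const_sub 1).mul_const _).add (s3.mul_const _))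
    simpa using le_of_tendsto' l fun k => (p1 k x).trans ((P2 k x).trans (S1 k x))
  have S4 : ∀ y : Y, S y = R y := fun y => le_antisymm (S2 _ _ (P5 _ _ fun j => by
    rw [d2]
    nlinarith [mul_nonneg (sq_nonneg (s j)) (apply_nonneg R (y : E))])) (S3 _)
  have Rc := sem_cont R R2
  refine ⟨S, ⟨c / 2, M + 1, by linarith, by linarith, fun x => ⟨(R1 x).trans (S3 x),
    S2 _ _ (P6 x)⟩⟩, fun x hx => ?_, fun y => (S4 y).trans (R3 y)⟩
  have hR : 0 < R x := (mul_pos (by linarith) (norm_pos_iff.2 hx)).trans_le (R1 x)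
  by_cases hxY : x ∈ Y
  · obtain ⟨f, f1, f2, f3⟩ := R4 ⟨x, hxY⟩ (fun h => hx (congrArg Subtype.val h))
    refine (sandwich S f x (fun y => (f1 y).trans (S3 y)) ((S4 ⟨x, hxY⟩).trans f2)
      fun ε hε => ?_).differentiableAt
    obtain ⟨K, hK⟩ := eventually_atTop.1 (s3.eventually_lt_const (show 0 < ε / 4 by linarith))
    have c1 : ∀ᶠ h in 𝓝 (0 : E), R x / 2 < R (x + h) :=
      ContinuousAt.eventually_lt continuousAt_const
        (Rc.comp (continuous_const.add continuous_id)).continuousAt (by simpa using hR)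
    filter_upwards [upper R f x f3 f2 (ε / 2) (by linarith), c1,
      ball_mem_nhds (0 : E) (show 0 < s K * R x / 8 by have := s0 K; positivity)] with h a1 a2 a3
    rw [mem_ball_zero_iff] at a3
    have a4 : d (x + h) ≤ ‖h‖ := by
      have := map_add_le_add d x h
      rw [d2 ⟨x, hxY⟩] at this
      linarith [d1 h]
    have hn := norm_nonneg h
    refine le_trans (S2 _ (R (x + h) + ε / 2 * ‖h‖) (P5 _ _ fun j => ?_)) (by linarith)
    have a5 := mul_le_mul_of_nonneg_left a4 (s0 j).le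
    rcases le_total K j with hj | hj
    · have := mul_le_mul_of_nonneg_right (hK j hj).le hn
      nlinarith [mul_nonneg (sq_nonneg (s j)) (apply_nonneg R (x + h))]
    · have a6 := mul_le_mul_of_nonneg_right (s4 hj) hR.le
      have a7 : 2 * ‖h‖ ≤ s j / 2 * R (x + h) := by nlinarith [s0 j]
      have := mul_le_mul_of_nonneg_left a7 (s0 j).le
      nlinarith [mul_nonneg hε.le hn]
  · have hd0 := d3 x hxY
    obtain ⟨j, hj⟩ := (s3.eventually_lt_const (show 0 < d x / (8 * R x) by positivity)).exists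
    rw [lt_div_iff₀ (by positivity)] at hj
    have dc := sem_cont d (C := 1) (by simpa using d1)
    let g : E → ℝ := fun z => (1 - s j ^ 2 / 8) * ((1 - s j ^ 2) * R z + s j * d z) - R z
    have gc : Continuous g := by fun_prop
    have g0 : 0 < g x := by
      have a0 := s0 j
      have a1 := s1 j
      have a2 : s j ^ 2 ≤ 1 / 4 := by nlinarith
      have a3 := mul_lt_mul_of_pos_left hj a0
      simp only [g]
      nlinarith [mul_nonneg (sq_nonneg (s j ^ 2)) hR.le, mul_pos a0 hd0,
        mul_le_mul_of_nonneg_right a2 (mul_pos a0 hd0).le]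
    obtain ⟨K, hK⟩ := eventually_atTop.1 ((s3.eventually_lt_const
      (show 0 < g x / 2 / ((M + 2) * (‖x‖ + 1)) by positivity)).and (eventually_ge_atTop j))
    refine (P3 K x hx).congr_of_eventuallyEq ?_
    filter_upwards [gc.continuousAt.eventually_const_lt (half_lt_self g0),
      continuous_norm.continuousAt.eventually_lt_const (lt_add_one ‖x‖)] with z a1 a2
    have key : ∀ k, K ≤ k → P k z = P K z := by
      intro k hk
      induction k, hk using Nat.le_induction with
      | base => rfl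
      | succ k hk ih =>
        rw [Ps, Q4 _ _ _ ?_, ih]
        obtain ⟨b1, b2⟩ := hK k hk
        rw [lt_div_iff₀ (by positivity)] at b1
        have b3 : g z + R z ≤ P k z := by
          simpa [g] using (p1 j z).trans ((P2 j z).trans (P1 z b2))
        have b4 := p2 (k + 1) z
        have b5 := P6 z k
        have b6 := (P2 (k + 1) z).trans (P6 z (k + 1))
        have b7 := s0 k
        have b8 := s1 k
        have hn := norm_nonneg z
        rw [s2] at b4
        have b9 : s k ^ 2 / 8 * (P k z + p (k + 1) z) ≤ s k * ((M + 1) * ‖z‖) := by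
          have := mul_le_mul (show s k ^ 2 / 8 ≤ s k / 2 by nlinarith) (add_le_add b5 b6)
            (add_nonneg (apply_nonneg _ _) (apply_nonneg _ _)) (by linarith)
          linarith
        have b10 := mul_le_mul_of_nonneg_left (d1 z) b7.le
        have b11 := mul_le_mul_of_nonneg_left a2.le (show 0 ≤ s k * (M + 2) by positivity)
        nlinarith [mul_nonneg (sq_nonneg (s k)) (apply_nonneg R z), mul_nonneg b7.le hn]
    refine le_antisymm (S2 _ _ fun k => ?_) (S1 K z)
    rcases le_total K k with hk | hk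
    · exact (key k hk).le
    · exact P1 z hk
/-- **Main theorem.** Let `X` be a real normed space such that its dual is separable, or it has an
equivalent norm whose dual norm is locally uniformly rotund, or its equivalent Fréchet differentiable
norms are dense among its equivalent norms. Then every equivalent Fréchet differentiable norm `q` on
a closed subspace `Y` of `X` is the restriction of an equivalent Fréchet differentiable norm `p` on
`X`. -/
theorem result (X : Type u) [NormedAddCommGroup X] [NormedSpace ℝ X]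
    (hX : TopologicalSpace.SeparableSpace (StrongDual ℝ X) ∨
      (∃ W : Seminorm ℝ X, IsEquivNorm W ∧ DualLUR W) ∨ FrechetDense X)
    (Y : Submodule ℝ X) (hY : IsClosed (Y : Set X)) (q : Seminorm ℝ Y) (hq : IsEquivNorm q)
    (hqF : IsFrechet q) :
    ∃ p : Seminorm ℝ X, IsEquivNorm p ∧ IsFrechet p ∧ ∀ y : Y, p (y : X) = q y := by
  have hd : FrechetDense X := by
    rcases hX with h | ⟨W, h1, h2⟩ | h
    · obtain ⟨W, h1, h2⟩ := lur_of_separable (E := X)
      exact dense_of_lur h1 h2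
    · exact dense_of_lur h1 h2
    · exact h
  obtain ⟨c, C, hc, hC, h⟩ := hq
  exact main hd Y hY q hc hC (fun y => (h y).1) (fun y => (h y).2) hqF

end Pool.Agent.Results.MP_471c81_an.DualLURExtension
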